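import Mathlib
import Pool.Agent.MP_7cc102_co.H75.Defs
import Pool.Agent.MP_7cc102_co.H75.Q2

open Pool.Agent.MP_7cc102_co.H75

/-- Every connected claw-free finite simple graph with minimum degree at least 3
has fractional total domatic number at least 2. -/
theorem Pool.Agent.Results.MP_7cc102_co.Q2.result {V : Type*} [Fintype V] [DecidableEq V]
    (G : SimpleGraph V) [DecidableRel G.Adj] (hconn : G.Connected)
    (hclaw : ¬ (completeBipartiteGraph (Fin 1) (Fin 3)).IsIndContained G)
    (hdeg : 3 ≤ G.minDegree) :
    2 ≤ FTD G :=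
  q2_bound G hconn (cf_of_not_ind G hclaw) (deg_filter G 3 hdeg)
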